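import Mathlib
import Pool.Agent.R829.EL.Top

/-!
# Points of bounded degree over abelian extensions on products of elliptic curves

Let `E_1, ..., E_g` be elliptic curves over a number field `K` with good reduction (ordinary or
supersingular) at a finite place `v` of `K` above the prime number `p`, with residue field of `q`
elements, and let `A` be their product. Let `m ≥ 1`, `B`, `D` and `a` be integers. There is a
constant `κ > 0` such that the Néron-Tate height (relative to the sum of the pull-backs of the
divisors `(O)`) of every point `P` of infinite order of `A(L)` is at least `κ`, where `L` is any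
extension of degree at most `D` of any finite Galois extension `N` of `K` with the following
properties:
* the ramification indices of `N` over `K` at the primes above `v` are not divisible by `p ^ a`;
* for the Frobenius elements `σ` of `Gal(N/K)` above `v` (the elements which act as `z ↦ z ^ q` on
  the residue field of a prime above `v`), `σ ^ m` has at most `B` conjugates.

The bound does not depend on the degree of `N`, and there is no condition on the residue degrees and
on the tame ramification of `N` above `v`. The second condition holds (with `m = B = 1`) for all abelian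
extensions `N` of `K`, and the first one holds (with `a = 1`) if `N` is tamely ramified above `v`.
In particular all these points `P` satisfy the inequality of the Lehmer problem of David and Hindry,
the right side of which is at most a constant.
-/

set_option autoImplicit false

namespace Pool.Agent.Results.MP_022f22_nt.GoodReductionProducts

open NumberField Module Filter Topology

/-- The Weierstrass equation `W` over the number field `K` has *good reduction* at the finite place
`v`: its coefficients are `v`-integral and its discriminant is a `v`-adic unit. -/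
def GoodReduction {K : Type} [Field K] [NumberField K] (v : FinitePlace K)
    (W : WeierstrassCurve.Affine K) : Prop :=
  v W.a₁ ≤ 1 ∧ v W.a₂ ≤ 1 ∧ v W.a₃ ≤ 1 ∧ v W.a₄ ≤ 1 ∧ v W.a₆ ≤ 1 ∧ v W.Δ = 1

/-- the coordinate vector `(x : 1)` of the first coordinate of a point of the curve `W` over `L`,
and `(1 : 0)` for the point at infinity -/
noncomputable def xCoord {L : Type} [Field L] {W : WeierstrassCurve.Affine L} :
    W.Point → Fin 2 → L
  | .zero => ![1, 0]
  | .some x _ _ => ![x, 1]

open Classical in
/-- `h` is the Néron-Tate height (relative to the divisor of the origin) of the point `P` over the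
number field `L`: half the limit of `h(x(2 ^ n P)) / 4 ^ n`, where `h` is the absolute logarithmic
Weil height, that is Mathlib's (relative) `Height.logHeight` divided by `[L : ℚ]` -/
def IsNeronTateHeight {L : Type} [Field L] [NumberField L] {W : WeierstrassCurve.Affine L}
    (P : W.Point) (h : ℝ) : Prop :=
  Tendsto (fun n : ℕ => Height.logHeight (xCoord (2 ^ n • P)) /
    (2 * (finrank ℚ L : ℝ) * (4 : ℝ) ^ n)) atTop (𝓝 h)

/-- `σ` is a Frobenius element of `Gal(N/K)` above the place `v` of `K`: it acts as the power
`z ↦ z ^ N(v)` modulo some prime ideal of `N` above `v` -/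
def IsFrobeniusAbove {K N : Type} [Field K] [NumberField K] [Field N] [NumberField N]
    [Algebra K N] (v : FinitePlace K) (σ : Gal(N/K)) : Prop :=
  ∃ 𝔓 : Ideal (𝓞 N), 𝔓.IsPrime ∧ 𝔓.under (𝓞 K) = v.maximalIdeal.asIdeal ∧
    ∀ z : 𝓞 N, σ • z - z ^ v.maximalIdeal.asIdeal.absNorm ∈ 𝔓

open Classical in
/-- **Main result.** -/
theorem result (K : Type) [Field K] [NumberField K]
    -- the elliptic curves, with good reduction at `v`
    (ι : Type) [Fintype ι] (W : ι → WeierstrassCurve.Affine K)
    (v : FinitePlace K) (hW : ∀ i, GoodReduction v (W i))
    (p : ℕ) (hp : p.Prime) (hpv : v (p : K) < 1)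
    -- `m = B = 1` is the case of abelian extensions `N`, `a = 1` the case of tame ramification
    (m : ℕ) (hm : 1 ≤ m) (B D a : ℕ) :
    ∃ κ : ℝ, 0 < κ ∧ ∀ (N L : Type) [Field N] [NumberField N] [Field L] [NumberField L]
      [Algebra K N] [Algebra K L] [Algebra N L] [IsScalarTower K N L] [IsGalois K N],
      (∀ σ : Gal(N/K), IsFrobeniusAbove v σ →
        (Set.range fun g : Gal(N/K) => g * σ ^ m * g⁻¹).ncard ≤ B) →
      (∀ 𝔓 : Ideal (𝓞 N), 𝔓.IsPrime → 𝔓.under (𝓞 K) = v.maximalIdeal.asIdeal →
        ¬ p ^ a ∣ 𝔓.ramificationIdx (𝓞 K)) →
      finrank N L ≤ D →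
      -- the points of infinite order of the product of the curves over `L`
      ∀ P : (i : ι) → ((W i).baseChange L).Point, (∃ i, ¬ IsOfFinAddOrder (P i)) →
      ∃ h : ι → ℝ, (∀ i, IsNeronTateHeight (P i) (h i)) ∧ κ ≤ ∑ i, h i := by
  obtain ⟨κ, hκ, h⟩ := R829.EL.main_prod W v hW hp hpv hm B D a
  refine ⟨κ, hκ, fun N L _ _ _ _ _ _ _ _ _ hconj hram hD P hP => ?_⟩
  obtain ⟨t, ht, hκt⟩ := h N L (fun σ 𝔓 h1 h2 h3 => hconj σ ⟨𝔓, h1, h2, h3⟩) hram hD P hP
  refine ⟨t, fun i => ?_, hκt⟩
  have hxc : ∀ Q : ((W i).baseChange L).Point, xCoord Q = R829.EL.xc Q := by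
    intro Q
    cases Q <;> rfl
  unfold IsNeronTateHeight
  simp only [hxc]
  exact ht i

end Pool.Agent.Results.MP_022f22_nt.GoodReductionProducts
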